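import Pool.Agent.Work.MP_80a07b_an.General

namespace Pool.Agent.Results.MP_80a07b_an.FiniteReflexive

/-- Let `X` be a reflexive Banach space over `𝕜 = ℝ` or `ℂ`, and let `G` be a bounded group of
invertible bounded operators on `X`, each of the form `ε Id + K` with `|ε| = 1` and `K` compact
(for instance of finite rank). If `G` is discrete for the strong operator topology, then `G` is
finite. -/
theorem result {𝕜 : Type*} [RCLike 𝕜] {X : Type*} [NormedAddCommGroup X] [NormedSpace 𝕜 X]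
    (hrefl : Function.Surjective (NormedSpace.inclusionInDoubleDual 𝕜 X))
    (G : Subgroup (X →L[𝕜] X)ˣ)
    (hbdd : ∃ C : ℝ, ∀ g ∈ G, ‖(g : X →L[𝕜] X)‖ ≤ C)
    (hform : ∀ g ∈ G, ∃ ε : 𝕜, ‖ε‖ = 1 ∧ ∃ K : X →L[𝕜] X,
      IsCompactOperator K ∧ (g : X →L[𝕜] X) = ε • ContinuousLinearMap.id 𝕜 X + K)
    (hdisc : ∀ g ∈ G, ∃ s : Finset X, ∃ r : ℝ, 0 < r ∧ ∀ h ∈ G,
      (∀ x ∈ s, ‖(h : X →L[𝕜] X) x - (g : X →L[𝕜] X) x‖ < r) → h = g) :
    (G : Set (X →L[𝕜] X)ˣ).Finite := by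
  obtain ⟨C, hC⟩ := hbdd
  obtain ⟨s, r, hr, hs⟩ := hdisc 1 G.one_mem
  have hG : Finite G :=
    Pool.Agent.Work.MP_80a07b_an.finite_of_compact_perturbation_scalar hrefl G C hC
      (fun g hg => by
        obtain ⟨ε, hε, K, hK, hgK⟩ := hform g hg
        refine ⟨ε, hε, ?_⟩
        have h1 : (g : X →L[𝕜] X) - ε • 1 = K := by
          rw [hgK]
          change ε • (1 : X →L[𝕜] X) + K - ε • 1 = K
          abel
        rw [h1]
        exact hK) s r hr (fun h hh hx => hs h hh (fun x hxs => hx x hxs))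
  exact Set.toFinite _

end Pool.Agent.Results.MP_80a07b_an.FiniteReflexive
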